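import Pool.Agent.Helper92.RECT.Goals4

/-!
# Project RECT: packet CHC, completeness of the check
-/

set_option autoImplicit false

namespace Pool.Agent.Helper61.RECT

open Pool.Agent.Helper65.LinSpace Pool.Agent.Helper78.Mpc Pool.Agent.Helper28.Ram Finset
open Pool.Agent.Helper65.OH (Prm OneHead Conf Par InBox co GoodQ Fns)
open Pool.Agent.Helper28.OHS (cellN cs cn cd Rep Box)
open Pool.Agent.Helper92.RECT

theorem lt01_pos {x : ℕ} (h : x ≠ 0) : lt01 0 x = 1 := if_pos (Nat.pos_of_ne_zero h)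

theorem chc (h : PTC_stmt) : CHC_stmt where
  chk := by
    intro D A w y s N tw k d a V Tc b g h' x r T F hC c f t₀ t₁ ht hr hcut hc hf
    have hall : ∀ al < 2 ^ (s.G.κ * s.m.D), (s.cfa c f al).pth tw N k d F (t₁ - t₀) ≠ 0 ∧
        t₁ - t₀ < 2 ^ tw := fun al hal =>
      h A w y s N tw k d a V Tc b g h' x r T F hC c f al t₀ t₁ ht.le hr hcut hc
        (fun h0 => absurd h0 hf.ne) (fun _ => hf) hal
    refine ⟨?_, (hall 0 (by positivity)).2⟩
    unfold Sp.chk
    have e1 : ∑ al ∈ range (2 ^ (s.G.κ * s.m.D)),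
        (1 - lt01 0 ((s.cfa c f al).pth tw N k d F (t₁ - t₀))) = 0 := by
      apply Finset.sum_eq_zero
      intro al hal
      rw [lt01_pos (hall al (mem_range.1 hal)).1, Nat.sub_self]
    rw [e1, lt01_pos (by omega : t₁ - t₀ ≠ 0), lt01_pos hf.ne, eq01_of rfl]
    norm_num
  ac1 := by
    intro D A w y s N tw k d a V Tc b g h' x r T F hC c t₀ ht hcut hc
    have h1 := h A w y s N tw k d a V Tc b g h' x r T F hC c 0 0 t₀ r ht le_rfl hcut hc
      (fun _ => rfl) (fun h0 => absurd rfl h0) (by positivity)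
    refine ⟨?_, h1.2⟩
    unfold Sp.ac1
    rw [lt01_pos h1.1]
    exact one_ne_zero

end Pool.Agent.Helper61.RECT
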