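import Pool.Agent.Helper92.RECT.Goals5
import Pool.Agent.Helper9.OHS.PAR

/-!
# Project RECT: packet PAR, the bounds of the theorem give admissible parameters
-/

set_option autoImplicit false

namespace Pool.Agent.Helper61.RECT

open Pool.Agent.Helper65.LinSpace Pool.Agent.Helper78.Mpc Pool.Agent.Helper28.Ram
open Pool.Agent.Helper65.OH (kap sd2)
open Finset Filter
open Pool.Agent.Helper81.Tok2 (gH)
open Pool.Agent.Helper28.Long (ZL ZL_le le_ZL)
open Pool.Agent.Helper92.RECT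

/-- the hypotheses of the statement for OHS -/
theorem hyp_ohs (D : ℕ) (C : ℝ) (hD : 0 < D) (n x s a b h : ℕ) (hs : 1 ≤ s)
    (h1 : (x : ℝ) * (s : ℝ) ^ (1 + 1 / (D : ℝ)) * (((h + b : ℕ) : ℝ) + ((Nat.log 2 n : ℝ) + 1)) ^ 4 ≤
      C * ((n : ℝ) + 1) ^ ((3 : ℝ) / 2 + 1 / (D : ℝ)))
    (h2 : ((s : ℝ) + (((h + b : ℕ) : ℝ) + ((Nat.log 2 n : ℝ) + 1))) * ((h : ℝ) + 1) *
      (((h + b : ℕ) : ℝ) + ((Nat.log 2 n : ℝ) + 1)) ≤ C * ((n : ℝ) + 1) ^ ((1 : ℝ) / 2))
    (h3 : (a : ℝ) * (((h + b : ℕ) : ℝ) + ((Nat.log 2 n : ℝ) + 1)) ^ 2 ≤ C * ((n : ℝ) + 1)) :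
    (((4 * (x + 1) : ℕ)) : ℝ) * (s : ℝ) ^ (1 + 1 / (D : ℝ)) *
      (((h + 1 + (b + (2 * ll n + 6)) : ℕ) : ℝ) + ((Nat.log 2 n : ℝ) + 1)) ^ 4 ≤
      (40000 * (|C| + |C| ^ 3) + 200 * |C|) * ((n : ℝ) + 1) ^ ((3 : ℝ) / 2 + 1 / (D : ℝ)) ∧
    ((s : ℝ) + (((h + 1 + (b + (2 * ll n + 6)) : ℕ) : ℝ) + ((Nat.log 2 n : ℝ) + 1))) *
      (((h + 1 : ℕ) : ℝ) + 1) *
      (((h + 1 + (b + (2 * ll n + 6)) : ℕ) : ℝ) + ((Nat.log 2 n : ℝ) + 1)) ≤
      (40000 * (|C| + |C| ^ 3) + 200 * |C|) * ((n : ℝ) + 1) ^ ((1 : ℝ) / 2) ∧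
    (a : ℝ) * (((h + 1 + (b + (2 * ll n + 6)) : ℕ) : ℝ) + ((Nat.log 2 n : ℝ) + 1)) ^ 2 ≤
      (40000 * (|C| + |C| ^ 3) + 200 * |C|) * ((n : ℝ) + 1) := by
  have hC : C ≤ |C| := le_abs_self C
  have hC0 := abs_nonneg C
  have hC3 : 0 ≤ |C| ^ 3 := by positivity
  have hlog0 : (0 : ℝ) ≤ (Nat.log 2 n : ℝ) := Nat.cast_nonneg _
  have hhb0 : (0 : ℝ) ≤ ((h + b : ℕ) : ℝ) := Nat.cast_nonneg _
  have hh0 : (0 : ℝ) ≤ (h : ℝ) := Nat.cast_nonneg _
  have hs1 : (1 : ℝ) ≤ s := by exact_mod_cast hs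
  have hn1 : (1 : ℝ) ≤ (n : ℝ) + 1 := by
    have : (0 : ℝ) ≤ (n : ℝ) := Nat.cast_nonneg _
    linarith
  have hl' : (((h + 1 + (b + (2 * ll n + 6)) : ℕ) : ℝ) + ((Nat.log 2 n : ℝ) + 1)) =
      ((h + b : ℕ) : ℝ) + 3 * ((Nat.log 2 n : ℝ) + 1) + 7 := by
    unfold ll
    push_cast
    ring
  rw [hl']
  set l : ℝ := ((h + b : ℕ) : ℝ) + ((Nat.log 2 n : ℝ) + 1) with hl
  have hl1 : 1 ≤ l := by linarith
  have hl10 : ((h + b : ℕ) : ℝ) + 3 * ((Nat.log 2 n : ℝ) + 1) + 7 ≤ 10 * l := by linarith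
  set l' : ℝ := ((h + b : ℕ) : ℝ) + 3 * ((Nat.log 2 n : ℝ) + 1) + 7 with hl'd
  have hl'0 : 0 ≤ l' := by linarith
  set v : ℝ := ((n : ℝ) + 1) ^ ((1 : ℝ) / 2) with hv
  have hv0 : 0 ≤ v := by positivity
  have hvv : v * v = (n : ℝ) + 1 := by
    rw [hv, ← Real.rpow_add (by linarith)]
    norm_num
  set E : ℝ := 1 / (D : ℝ) with hE
  have hD1 : (1 : ℝ) ≤ D := by exact_mod_cast hD
  have hE0 : 0 < E := by positivity
  have hE1 : E ≤ 1 := by
    rw [hE, div_le_one (by linarith)]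
    exact hD1
  set W : ℝ := ((n : ℝ) + 1) ^ ((3 : ℝ) / 2 + E) with hW
  have hW0 : 0 ≤ W := by positivity
  have hvW : v * v * v ≤ W := by
    have e1 : v * v * v = ((n : ℝ) + 1) ^ ((3 : ℝ) / 2) := by
      rw [hv, ← Real.rpow_add (by linarith), ← Real.rpow_add (by linarith)]
      norm_num
    rw [e1, hW]
    exact Real.rpow_le_rpow_of_exponent_le hn1 (by linarith)
  have h2' : ((s : ℝ) + l) * ((h : ℝ) + 1) * l ≤ |C| * v :=
    h2.trans (mul_le_mul_of_nonneg_right hC hv0)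
  have hsl0 : 0 ≤ ((s : ℝ) + l) * l := by positivity
  have hsl : ((s : ℝ) + l) * l ≤ |C| * v := by
    refine le_trans ?_ h2'
    calc ((s : ℝ) + l) * l = ((s : ℝ) + l) * l * 1 := by ring
      _ ≤ ((s : ℝ) + l) * l * ((h : ℝ) + 1) := mul_le_mul_of_nonneg_left (by linarith) hsl0
      _ = _ := by ring
  have hsl1 : (s : ℝ) * l ≤ |C| * v := by nlinarith
  have hll1 : l * l ≤ |C| * v := by nlinarith
  refine ⟨?_, ?_, ?_⟩
  · have e1 : (s : ℝ) ^ (1 + E) ≤ s * s := by
      calc (s : ℝ) ^ (1 + E) ≤ (s : ℝ) ^ (2 : ℝ) := Real.rpow_le_rpow_of_exponent_le hs1 (by linarith)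
        _ = s * s := by
          rw [show (2 : ℝ) = ((2 : ℕ) : ℝ) by norm_num, Real.rpow_natCast]
          ring
    have hse : 0 ≤ (s : ℝ) ^ (1 + E) := by positivity
    have e2 : (s : ℝ) ^ (1 + E) * l ^ 4 ≤ |C| ^ 3 * W := by
      calc (s : ℝ) ^ (1 + E) * l ^ 4 ≤ (s * s) * l ^ 4 := mul_le_mul_of_nonneg_right e1 (by positivity)
        _ = (s * l) * (s * l) * (l * l) := by ring
        _ ≤ (|C| * v) * (|C| * v) * (|C| * v) := by
          have p1 : 0 ≤ (s : ℝ) * l := by positivity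
          have p2 : 0 ≤ l * l := by positivity
          exact mul_le_mul (mul_le_mul hsl1 hsl1 p1 (by positivity)) hll1 p2 (by positivity)
        _ = |C| ^ 3 * (v * v * v) := by ring
        _ ≤ |C| ^ 3 * W := mul_le_mul_of_nonneg_left hvW hC3
    have e3 : l' ^ 4 ≤ 10000 * l ^ 4 := by
      calc l' ^ 4 ≤ (10 * l) ^ 4 := pow_le_pow_left₀ hl'0 hl10 4
        _ = 10000 * l ^ 4 := by ring
    have h1' : (x : ℝ) * (s : ℝ) ^ (1 + E) * l ^ 4 ≤ |C| * W :=
      h1.trans (mul_le_mul_of_nonneg_right hC hW0)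
    calc (((4 * (x + 1) : ℕ)) : ℝ) * (s : ℝ) ^ (1 + E) * l' ^ 4
        ≤ (((4 * (x + 1) : ℕ)) : ℝ) * (s : ℝ) ^ (1 + E) * (10000 * l ^ 4) :=
          mul_le_mul_of_nonneg_left e3 (by positivity)
      _ = 40000 * ((x : ℝ) * (s : ℝ) ^ (1 + E) * l ^ 4 + (s : ℝ) ^ (1 + E) * l ^ 4) := by
          push_cast
          ring
      _ ≤ 40000 * (|C| * W + |C| ^ 3 * W) := by linarith
      _ = 40000 * (|C| + |C| ^ 3) * W := by ring
      _ ≤ (40000 * (|C| + |C| ^ 3) + 200 * |C|) * W :=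
          mul_le_mul_of_nonneg_right (by linarith) hW0
  · have e1 : (s : ℝ) + l' ≤ 10 * (s + l) := by linarith
    have e2 : (((h + 1 : ℕ) : ℝ) + 1) ≤ 2 * ((h : ℝ) + 1) := by
      push_cast
      linarith
    calc ((s : ℝ) + l') * (((h + 1 : ℕ) : ℝ) + 1) * l'
        ≤ (10 * (s + l)) * (2 * ((h : ℝ) + 1)) * (10 * l) := by
          refine mul_le_mul (mul_le_mul e1 e2 (by positivity) (by positivity)) hl10 hl'0 (by positivity)
      _ = 200 * (((s : ℝ) + l) * ((h : ℝ) + 1) * l) := by ring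
      _ ≤ 200 * (|C| * v) := by linarith
      _ = 200 * |C| * v := by ring
      _ ≤ (40000 * (|C| + |C| ^ 3) + 200 * |C|) * v :=
          mul_le_mul_of_nonneg_right (by linarith) hv0
  · have e1 : l' ^ 2 ≤ 100 * l ^ 2 := by
      calc l' ^ 2 ≤ (10 * l) ^ 2 := pow_le_pow_left₀ hl'0 hl10 2
        _ = 100 * l ^ 2 := by ring
    have h3' : (a : ℝ) * l ^ 2 ≤ |C| * ((n : ℝ) + 1) :=
      h3.trans (mul_le_mul_of_nonneg_right hC (by linarith))
    calc (a : ℝ) * l' ^ 2 ≤ a * (100 * l ^ 2) := mul_le_mul_of_nonneg_left e1 (Nat.cast_nonneg _)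
      _ = 100 * (a * l ^ 2) := by ring
      _ ≤ 100 * (|C| * ((n : ℝ) + 1)) := by linarith
      _ = 100 * |C| * ((n : ℝ) + 1) := by ring
      _ ≤ (40000 * (|C| + |C| ^ 3) + 200 * |C|) * ((n : ℝ) + 1) :=
          mul_le_mul_of_nonneg_right (by linarith) (by linarith)

theorem le01_eq {x y : ℕ} (h : x ≤ y) : le01 x y = 1 := if_pos h

theorem of_le01_mul {x y z : ℕ} (h : le01 x y * z = 1) : x ≤ y ∧ z = 1 := by
  unfold le01 at h
  split_ifs at h with h1
  · exact ⟨h1, by omega⟩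
  · omega

theorem par : PAR_stmt := by
  intro D C hD
  set C' : ℝ := 40000 * (|C| + |C| ^ 3) + 200 * |C| with hC'
  obtain ⟨K, hK⟩ := exists_nat_gt (1280 * (D * (D + 1)) * |C| + 17 * D * |C| + 1)
  filter_upwards [ev_ll_ge K, Pool.Agent.Helper9.OHS.par D C' hD] with n hn hohs x s g a b h k N hs h1 h2 h3 h4
  obtain ⟨q1, q2, q3⟩ := hyp_ohs D C hD n x s a b h hs h1 h2 h3
  obtain ⟨r1, r2, r3, r4, r5, r6, r7⟩ :=
    hohs (4 * (x + 1)) s (b + (2 * ll n + 6)) a (h + 1) hs q1 q2 q3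
  unfold Pool.Agent.Helper28.OHS.gd at r1
  obtain ⟨g1, r1⟩ := of_le01_mul r1
  obtain ⟨g2, r1⟩ := of_le01_mul r1
  have g3 : a ≤ ZL n := by
    have : le01 a (ZL n) * 1 = 1 := by rw [mul_one]; exact r1
    exact (of_le01_mul this).1
  have hlp := ll_pos n
  have hDl : 2 * ll n + 5 ≤ (2 * ll n + 5) * D := Nat.le_mul_of_pos_right _ hD
  have hσ : vb n D s b h + 1 ≤ s + (b + (2 * ll n + 6) + 1) * D + (h + 1 + kap n) := by
    unfold vb kap
    have e1 : (b + (2 * ll n + 6) + 1) * D = (b + 2) * D + (2 * ll n + 5) * D := by ring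
    rw [e1]
    omega
  have f1 : vb n D s b h + 1 ≤ gH n (h + 1) := hσ.trans g1
  have f2 : (vb n D s b h + 2) * (h + 1) ≤ gH n (h + 1) :=
    (Nat.mul_le_mul_right _ (by omega)).trans g2
  -- real numbers
  have hC : C ≤ |C| := le_abs_self C
  have hC0 := abs_nonneg C
  have hD1 : (1 : ℝ) ≤ D := by exact_mod_cast hD
  have hlr : ((h + b : ℕ) : ℝ) + ((Nat.log 2 n : ℝ) + 1) = ((h + b + ll n : ℕ) : ℝ) := by
    unfold ll
    push_cast
    ring
  rw [hlr] at h4
  set l : ℕ := h + b + ll n with hl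
  have hl1 : 1 ≤ l := by omega
  have hlK : K ≤ l := by omega
  set X : ℕ := (k + 1) * (g + k + (N + 1) * (s + l)) with hX
  have h4' : (X : ℝ) * l ≤ |C| * ((n : ℝ) + 1) := by
    refine le_trans (le_of_eq ?_) (h4.trans (mul_le_mul_of_nonneg_right hC (by positivity)))
    rw [hX]
    push_cast
    ring
  have hX1 : 1 ≤ X := by
    rw [hX]
    have : 1 ≤ (N + 1) * (s + l) := Nat.mul_pos (by omega) (by omega)
    exact Nat.mul_pos (by omega) (by omega)
  have hCpos : 0 < |C| := by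
    rcases hC0.lt_or_eq with h5 | h5
    · exact h5
    · rw [← h5, zero_mul] at h4'
      have : (0 : ℝ) < (X : ℝ) * l := by
        have e1 : (0 : ℝ) < X := by exact_mod_cast hX1
        have e2 : (0 : ℝ) < l := by exact_mod_cast hl1
        positivity
      linarith
  have hlr2 : 1280 * (D * (D + 1)) * |C| + 17 * D * |C| + 1 < (l : ℝ) :=
    hK.trans_le (by exact_mod_cast hlK)
  have hXn : 17 * (D * X) ≤ n + 1 := by
    have e1 : (17 * (D * X) : ℝ) * |C| ≤ ((n : ℝ) + 1) * |C| := by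
      have e2 : (17 * D * |C| : ℝ) ≤ l := by
        have : (0 : ℝ) ≤ 1280 * (D * (D + 1)) * |C| := by positivity
        linarith
      calc (17 * (D * X) : ℝ) * |C| = X * (17 * D * |C|) := by ring
        _ ≤ X * l := mul_le_mul_of_nonneg_left e2 (Nat.cast_nonneg _)
        _ ≤ |C| * ((n : ℝ) + 1) := h4'
        _ = _ := by ring
    have e3 := le_of_mul_le_mul_right e1 hCpos
    exact_mod_cast e3
  have hDX : X ≤ D * X := Nat.le_mul_of_pos_left _ hD
  have hkX : g + k + (N + 1) * (s + l) ≤ X := by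
    rw [hX]
    exact Nat.le_mul_of_pos_left _ (by omega)
  have hN1 : N + 1 ≤ (N + 1) * (s + l) := Nat.le_mul_of_pos_right _ (by omega)
  have f4 : (g + 1) * D ≤ n + 1 := by
    have e1 : (g + 1) * D ≤ X * D := Nat.mul_le_mul_right _ (by omega)
    have e2 : X * D = D * X := mul_comm _ _
    omega
  have f5 : (k + 1) * zb n D s g b h k N ≤ n + 1 := by
    have e1 : zb n D s g b h k N ≤ 17 * (D * (g + k + (N + 1) * (s + l))) := by
      unfold zb
      have p1 : s + 1 + (b + 2) * D ≤ D * (4 * (s + l)) := by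
        have e2 : D * (4 * (s + l)) = 4 * (D * s) + 4 * (D * l) := by ring
        have e3 : s ≤ D * s := Nat.le_mul_of_pos_left _ hD
        have e4 : (b + 2) * D = D * b + 2 * D := by ring
        have e5 : D * b ≤ D * l := Nat.mul_le_mul_left _ (by omega)
        have e6 : D ≤ D * l := Nat.le_mul_of_pos_right _ hl1
        omega
      have p2 : (s + 1 + (b + 2) * D) * N ≤ D * (4 * (s + l)) * N := Nat.mul_le_mul_right _ p1
      have p3 : D * (4 * (s + l)) * N = 4 * (D * (N * (s + l))) := by ring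
      have p4 : 17 * (D * (g + k + (N + 1) * (s + l))) =
          17 * (D * (g + k)) + 17 * (D * (N * (s + l))) + 17 * (D * (s + l)) := by ring
      have p5 : g + k ≤ D * (g + k) := Nat.le_mul_of_pos_left _ hD
      have p6 : s + l ≤ D * (s + l) := Nat.le_mul_of_pos_left _ hD
      omega
    calc (k + 1) * zb n D s g b h k N ≤ (k + 1) * (17 * (D * (g + k + (N + 1) * (s + l)))) :=
          Nat.mul_le_mul_left _ e1
      _ = 17 * (D * X) := by rw [hX]; ring
      _ ≤ n + 1 := hXn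
  have hgd : gd n D s g a b h k N = 1 := by
    unfold gd
    rw [le01_eq f1, le01_eq f2, le01_eq g3, le01_eq f4, le01_eq f5]
  refine ⟨hgd, r2, by omega, r4, by omega, by omega, by omega, by omega, ?_, ?_⟩
  · have e1 : 2 ^ (h + 1 + (4 * ll n + 5)) = 2 * 2 ^ (h + (4 * ll n + 5)) := by
      rw [show h + 1 + (4 * ll n + 5) = h + (4 * ll n + 5) + 1 by ring, pow_succ]
      ring
    have e2 : 2 ^ (h + 1) * (4 * (x + 1) + 1) = 2 * (2 ^ h * (4 * (x + 1) + 1)) := by
      rw [pow_succ]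
      ring
    have e3 : 2 ^ h * (x + 1) ≤ 2 ^ h * (4 * (x + 1) + 1) := Nat.mul_le_mul_left _ (by omega)
    omega
  · -- the number of steps of the simulation
    set G : ℕ := gH n (h + 1) with hG
    set d : ℕ := sd2 G s D with hd
    set σ' : ℕ := s + (b + (2 * ll n + 6) + 1) * D + (h + 1 + kap n) with hσ'
    set TT : ℕ := G * (G * (G / (vb n D s b h + 1))) with hTT
    have hG1 : 1 ≤ G := by omega
    have hT1 : G * (G * (G / σ')) ≤ TT :=
      Nat.mul_le_mul_left _ (Nat.mul_le_mul_left _ (Nat.div_le_div_left hσ (by omega)))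
    have hd1 : 1 ≤ d := by
      have hgg : G ≤ G * G := Nat.le_mul_of_pos_left _ hG1
      obtain ⟨d1, -, -⟩ := Pool.Agent.Helper90.OH.side_aux s D (G * G) hD (by
        have : s + 1 ≤ G := by
          unfold vb at f1
          omega
        omega)
      exact d1
    have hdT : d * (G * (G * (G / σ'))) ≤ d * TT := Nat.mul_le_mul_left _ hT1
    have hx : 16 * (D * (x + 1)) ≤ d * TT := by
      have e1 : 2 * D * (2 * (4 * (x + 1)) + 1) = 16 * (D * (x + 1)) + 2 * D := by ring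
      omega
    -- `16 (D + 1) (N + 1) ≤ TT`
    have hNT : 16 * ((D + 1) * (N + 1)) ≤ TT := by
      set q : ℕ := G / (vb n D s b h + 1) with hq
      have hq1 : 1 ≤ q := by
        rw [hq, Nat.le_div_iff_mul_le (by omega)]
        omega
      have hGq : G ≤ 2 * q * (vb n D s b h + 1) := by
        have h21 : G < (q + 1) * (vb n D s b h + 1) := by
          have := Nat.lt_div_mul_add (a := G) (b := vb n D s b h + 1) (by omega)
          rw [add_mul, one_mul]
          exact this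
        have h22 : (q + 1) * (vb n D s b h + 1) ≤ (2 * q) * (vb n D s b h + 1) :=
          Nat.mul_le_mul_right _ (by omega)
        omega
      have hvb : vb n D s b h + 1 ≤ 20 * (D * (s + l)) := by
        unfold vb
        have e1 : 20 * (D * (s + l)) = 20 * (D * s) + 20 * (D * l) := by ring
        have e2 : s ≤ D * s := Nat.le_mul_of_pos_left _ hD
        have e3 : (b + 2) * D = D * b + 2 * D := by ring
        have e4 : D * b ≤ D * l := Nat.mul_le_mul_left _ (by omega)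
        have e5 : D ≤ D * l := Nat.le_mul_of_pos_right _ hl1
        have e6 : l ≤ D * l := Nat.le_mul_of_pos_left _ hD
        omega
      have hGr : (G : ℝ) ≤ 2 * q * (20 * (D * (s + l))) := by
        have : G ≤ 2 * q * (20 * (D * (s + l))) := hGq.trans (Nat.mul_le_mul_left _ hvb)
        exact_mod_cast this
      have hNsl : ((N : ℝ) + 1) * (s + l) ≤ 2 * |C| * (G * G) := by
        have e1 : ((N : ℝ) + 1) * (s + l) * l ≤ (2 * |C| * (G * G)) * l := by
          have p1 : ((N : ℝ) + 1) * (s + l) ≤ X := by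
            have : (N + 1) * (s + l) ≤ X := by omega
            exact_mod_cast this
          have p2 : (n : ℝ) + 1 ≤ G * G * (2 * l) := by
            have := Pool.Agent.Helper28.Few.lt_gH_sq n (h + 1)
            have e2 : n + 1 ≤ G * G * (2 * l) :=
              this.trans (Nat.mul_le_mul_left _ (by omega))
            exact_mod_cast e2
          calc ((N : ℝ) + 1) * (s + l) * l ≤ X * l :=
                mul_le_mul_of_nonneg_right p1 (Nat.cast_nonneg _)
            _ ≤ |C| * ((n : ℝ) + 1) := h4'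
            _ ≤ |C| * (G * G * (2 * l)) := mul_le_mul_of_nonneg_left p2 hC0
            _ = _ := by ring
        exact le_of_mul_le_mul_right e1 (by exact_mod_cast hl1)
      have hlG : (l : ℝ) ≤ G := by
        have : l ≤ G := by
          unfold vb at f1
          have e1 : b ≤ b * D := Nat.le_mul_of_pos_right _ hD
          have e2 : (b + 2) * D = b * D + 2 * D := by ring
          omega
        exact_mod_cast this
      have hGbig : 1280 * (D * (D + 1)) * |C| ≤ (G : ℝ) := by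
        have : (0 : ℝ) ≤ 17 * D * |C| := by positivity
        linarith
      have hsl : (0 : ℝ) < (s : ℝ) + l := by
        have : (1 : ℝ) ≤ l := by exact_mod_cast hl1
        positivity
      have key : (16 * (((D : ℝ) + 1) * (N + 1))) * (s + l) ≤ (G * (G * q)) * (s + l) := by
        have e1 : (16 * (((D : ℝ) + 1) * (N + 1))) * (s + l) ≤ 32 * (D + 1) * |C| * (G * G) := by
          calc (16 * (((D : ℝ) + 1) * (N + 1))) * (s + l) = 16 * (D + 1) * (((N : ℝ) + 1) * (s + l)) := by ring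
            _ ≤ 16 * (D + 1) * (2 * |C| * (G * G)) := mul_le_mul_of_nonneg_left hNsl (by positivity)
            _ = _ := by ring
        have e2 : (40 * D : ℝ) * (32 * (D + 1) * |C| * (G * G)) ≤ (40 * D : ℝ) * ((G * (G * q)) * (s + l)) := by
          calc (40 * D : ℝ) * (32 * (D + 1) * |C| * (G * G)) = 1280 * (D * (D + 1)) * |C| * (G * G) := by ring
            _ ≤ G * (G * G) := mul_le_mul_of_nonneg_right hGbig (by positivity)
            _ ≤ (2 * q * (20 * (D * (s + l)))) * (G * G) :=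
                mul_le_mul_of_nonneg_right hGr (by positivity)
            _ = _ := by ring
        exact e1.trans (le_of_mul_le_mul_left e2 (by positivity))
      have key2 := le_of_mul_le_mul_right key hsl
      rw [hTT]
      exact_mod_cast key2
    have e1 : 2 * D * (2 * (x + 2 * N) + 1) + (4 * (2 * N) + 5) * d =
        4 * (D * x) + 2 * D + 8 * (D * N) + (8 * (N * d) + 5 * d) := by ring
    have e2 : 16 * ((D + 1) * (N + 1)) * d ≤ TT * d := Nat.mul_le_mul_right _ hNT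
    have e3 : 16 * ((D + 1) * (N + 1)) * d =
        16 * (D * (N * d)) + 16 * (D * d) + 16 * (N * d) + 16 * d := by ring
    have e4 : D * N ≤ D * (N * d) := Nat.mul_le_mul_left _ (Nat.le_mul_of_pos_right _ hd1)
    have e5 : D ≤ D * d := Nat.le_mul_of_pos_right _ hd1
    have e6 : TT * d = d * TT := mul_comm _ _
    have e7 : 16 * (D * (x + 1)) = 16 * (D * x) + 16 * D := by ring
    rw [e1]
    omega

end Pool.Agent.Helper61.RECT
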